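import Pool.Agent.Y112.KD.Kill

/-!
# Morphisms with a vanishing exterior or symmetric power are algebraic
-/

set_option autoImplicit false
set_option linter.all false

open CategoryTheory Limits MonoidalCategory Polynomial
open Pool.Agent.Y112.KD
open Pool.Agent.TH829.Kim (K K_succ update_pow sum_update update_pos)

namespace Pool.Agent.K3h42.SM

section

variable {R : Type*} [Ring R] [Algebra ℚ R] (tr : R →ₗ[ℚ] ℚ) (η : ℚ)

theorem K_poly (h : R) (n : ℕ) (a : Fin (n + 1) → ℕ) (ha : ∀ i, 1 ≤ a i) :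
    ∃ P : ℚ[X], K tr η n (fun i => h ^ a i) = aeval h P ∧ P.natDegree ≤ ∑ i, a i ∧
      P.coeff (∑ i, a i) = η ^ n * n.factorial := by
  induction n with
  | zero => exact ⟨X ^ a 0, by simp [K], by simp, by simp⟩
  | succ n ih =>
    obtain ⟨P, hP, hd, hc⟩ := ih (fun i => a i.succ) fun i => ha _
    have h1 : ∀ i : Fin (n + 1), ∃ Q : ℚ[X], K tr η n (Function.update
        (fun j : Fin (n + 1) => h ^ a j.succ) i (h ^ a 0 * h ^ a i.succ)) = aeval h Q ∧
        Q.natDegree ≤ ∑ i, a i ∧ Q.coeff (∑ i, a i) = η ^ n * n.factorial := by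
      intro i
      obtain ⟨Q, h2, h3, h4⟩ := ih _ (update_pos ha i)
      rw [sum_update] at h3 h4
      exact ⟨Q, by rw [update_pow, h2], h3, h4⟩
    choose Q h2 h3 h4 using h1
    have hs : ∑ i, a i = a 0 + ∑ i : Fin (n + 1), a i.succ := Fin.sum_univ_succ a
    refine ⟨C (tr (h ^ a 0)) * P + C η * ∑ i, Q i, ?_, ?_, ?_⟩
    · rw [K_succ, map_add, map_mul, map_mul, aeval_C, aeval_C, map_sum, hP]
      rw [Finset.sum_congr rfl fun i _ => h2 i, ← Algebra.smul_def, ← Algebra.smul_def]
    · refine (natDegree_add_le _ _).trans (max_le ?_ ?_)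
      · refine (natDegree_C_mul_le _ _).trans (hd.trans ?_)
        rw [hs]
        omega
      · refine (natDegree_C_mul_le _ _).trans (natDegree_sum_le_of_forall_le _ _ fun i _ => h3 i)
    · rw [coeff_add, coeff_C_mul, coeff_C_mul, finset_sum_coeff,
        Finset.sum_congr rfl fun i _ => h4 i, Finset.sum_const, Finset.card_univ,
        Fintype.card_fin]
      rw [coeff_eq_zero_of_natDegree_lt (by
        have := ha 0
        omega), mul_zero, zero_add, nsmul_eq_mul, Nat.factorial_succ, pow_succ]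
      push_cast
      ring

/-- An element which is algebraic: the complement of the generalised kernel. -/
theorem exists_idem (f : R) (P : ℚ[X]) (hP : P ≠ 0) (h : aeval f P = 0) :
    ∃ e u w : R, e * e = e ∧ e = f * u ∧ f * u = u * f ∧ (1 - e) = (1 - f) * w ∧
      (1 - f) * w = w * (1 - f) ∧ e * f = f * e ∧ ∃ a : ℕ, (1 - e) * f ^ a = 0 := by
  obtain ⟨Q, hQ, hQ0⟩ := exists_eq_pow_rootMultiplicity_mul_and_not_dvd P hP 0
  rw [C_0, sub_zero] at hQ hQ0
  set a := P.rootMultiplicity 0
  have hco : IsCoprime (X ^ (a + 1) : ℚ[X]) Q :=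
    IsCoprime.pow_left ((irreducible_X.coprime_iff_not_dvd).2 hQ0)
  obtain ⟨A, B, hAB⟩ := hco
  have e1 : aeval f (X ^ (a + 1) * Q) = 0 := by
    have : (X ^ (a + 1) * Q : ℚ[X]) = X * P := by
      conv_rhs => rw [hQ]
      ring
    rw [this, map_mul, h, mul_zero]
  have hz : ∀ S : ℚ[X], aeval f (S * (X ^ (a + 1) * Q)) = 0 := fun S => by
    rw [map_mul, e1, mul_zero]
  have comm : ∀ S T : ℚ[X], aeval f S * aeval f T = aeval f T * aeval f S := fun S T => by
    rw [← map_mul, ← map_mul, mul_comm]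
  have hf : aeval f (X : ℚ[X]) = f := aeval_X f
  have h1 : (1 : R) = aeval f (1 : ℚ[X]) := (map_one _).symm
  let E : ℚ[X] := A * X ^ (a + 1)
  let W : ℚ[X] := B * Q * ∑ k ∈ Finset.range (a + 1), X ^ k
  have eE : E = X * (A * X ^ a) := by
    show A * X ^ (a + 1) = _
    ring
  have e2 : (1 : ℚ[X]) - E = B * Q := by
    rw [← hAB]
    show A * X ^ (a + 1) + B * Q - A * X ^ (a + 1) = _
    ring
  have e3 : (1 : ℚ[X]) - E = (1 - X) * W + B * (X ^ (a + 1) * Q) := by
    have hg : (∑ k ∈ Finset.range (a + 1), (X : ℚ[X]) ^ k) * (1 - X) = 1 - X ^ (a + 1) :=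
      geom_sum_mul_neg _ _
    have : (1 - X) * W = B * Q * ((∑ k ∈ Finset.range (a + 1), (X : ℚ[X]) ^ k) * (1 - X)) := by
      show (1 - X) * (B * Q * ∑ k ∈ Finset.range (a + 1), X ^ k) = _
      ring
    rw [e2, this, hg]
    ring
  refine ⟨aeval f E, aeval f (A * X ^ a), aeval f W, ?_, ?_, ?_, ?_, ?_, ?_, a + 1, ?_⟩
  · have : E * E = E - A * B * (X ^ (a + 1) * Q) := by
      have : E * E = E - E * (1 - E) := by ring
      rw [this, e2]
      show A * X ^ (a + 1) - A * X ^ (a + 1) * (B * Q) = A * X ^ (a + 1) - _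
      ring
    rw [← map_mul, this, map_sub, hz, sub_zero]
  · rw [eE, map_mul, hf]
  · have := comm X (A * X ^ a)
    rw [hf] at this
    exact this
  · have h5 : aeval f ((1 - X) * W) = (1 - f) * aeval f W := by
      rw [map_mul, map_sub, map_one, hf]
    have : aeval f ((1 : ℚ[X]) - E) = aeval f ((1 - X) * W + B * (X ^ (a + 1) * Q)) := by rw [e3]
    rw [map_sub, map_one, map_add, hz, add_zero, h5] at this
    exact this
  · have := comm (1 - X) W
    rw [map_sub, map_one, hf] at this
    exact this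
  · have := comm E X
    rw [hf] at this
    exact this
  · have : aeval f ((1 - E) * X ^ (a + 1)) = 0 := by
      have e : (1 - E) * X ^ (a + 1) = B * (X ^ (a + 1) * Q) := by
        rw [e2]
        ring
      rw [e, hz]
    rw [map_mul, map_sub, map_one, map_pow, hf] at this
    exact this

end

universe v u

section

variable {C : Type u} [Category.{v} C] [MonoidalCategory C] [SymmetricCategory C]
  [Preadditive C] [Linear ℚ C] [MonoidalPreadditive C] [MonoidalLinear ℚ C]
  [RightRigidCategory C]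

theorem Dn_const {M : C} (f : M ⟶ M) (n : ℕ) : Dn n (fun _ => f) = tpm f n := by
  induction n with
  | zero => rfl
  | succ n ih =>
    rw [Dn_succ, ih]
    rfl

/-- A morphism with a vanishing exterior or symmetric power is algebraic. -/
theorem algebraic (hU : UnitQ C) {η : ℚ} (hη : η * η = 1) {M : C} (f : M ⟶ M) (n : ℕ)
    (h : tpm f n ≫ asym η M n = 0) : ∃ P : ℚ[X], P ≠ 0 ∧ aeval (A := End M) f P = 0 := by
  rcases n with - | n
  · exfalso
    apply hU.ne
    have h1 : tpm f 0 ≫ asym η M 0 = 𝟙 (𝟙_ C) ≫ 𝟙 (𝟙_ C) := rfl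
    rw [h1, Category.id_comp] at h
    exact h
  · have h1 : gg η (n + 1) (fun _ : Fin (n + 1) => (f : End M)) = 0 := by
      have h2 : Dn (n + 1) (fun i => ((fun _ : Fin (n + 1) => (f : End M)) i : M ⟶ M)) =
          tpm f (n + 1) := Dn_const f (n + 1)
      rw [gg, h2, h, smul_zero]
    have h2 := cc_gg hU hη n (fun _ : Fin (n + 1) => (f : End M))
    rw [h1, map_zero] at h2
    obtain ⟨P, hP, -, hc⟩ := K_poly (trq hU M) η (f : End M) n (fun _ => 1) fun _ => le_rfl
    refine ⟨P, ?_, ?_⟩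
    · rintro rfl
      rw [coeff_zero] at hc
      have hη0 : η ≠ 0 := by
        rintro rfl
        norm_num at hη
      exact (mul_ne_zero (pow_ne_zero n hη0) (by exact_mod_cast n.factorial_ne_zero)) hc.symm
    · rw [← hP]
      simp only [pow_one]
      exact h2.symm

end

end Pool.Agent.K3h42.SM
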