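import Pool.Agent.K3h42.SM.Add
import Pool.Agent.K3h42.SM.Alg
import Pool.Agent.R905.Defs

/-!
# Kimura-finiteness and sums of morphisms with vanishing powers
-/

set_option autoImplicit false
set_option linter.all false

open CategoryTheory Limits MonoidalCategory Polynomial
open Pool.Agent.Y112.KD
open Pool.Agent.R905 (PowerVanishes IsKimuraFinite)

namespace Pool.Agent.K3h42.SM

universe v u

section defs

variable {C : Type u} [Category.{v} C] [MonoidalCategory C] [SymmetricCategory C]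
  [Preadditive C] [Linear ℚ C]

/-- The `n`-th exterior power (for `η = -1`) or the `n`-th symmetric power (for `η = 1`) of the
morphism `f : M ⟶ N` is zero: each morphism `h` on `N ⊗ ⋯ ⊗ N` (`n` factors) with `h ∘ s = η h` for all
exchanges `s` of two neighbouring factors satisfies `h ∘ (f ⊗ ⋯ ⊗ f) = 0`. -/
def PowerZero (η : ℚ) {M N : C} (f : M ⟶ N) (n : ℕ) : Prop :=
  ∀ (Z : C) (h : tp N n ⟶ Z), (∀ s, IsSwap N n s → s ≫ h = η • h) → tpm f n ≫ h = 0

/-- The endomorphism `x` of `M` is a finite sum of compositions `M ⟶ N i ⟶ N' i ⟶ M` whose middle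
factors `f i` have vanishing exterior (for `η = -1`) or symmetric (for `η = 1`) powers of the orders
`k i + 1`, where the sum of the numbers `k i` is `r`. -/
def IsSumOf (η : ℚ) {M : C} (x : M ⟶ M) (r : ℕ) : Prop :=
  ∃ (m : ℕ) (N N' : Fin m → C) (a : ∀ i, M ⟶ N i) (f : ∀ i, N i ⟶ N' i) (b : ∀ i, N' i ⟶ M)
    (k : Fin m → ℕ), (∀ i, PowerZero η (f i) (k i + 1)) ∧ ∑ i, k i = r ∧
      ∑ i, a i ≫ f i ≫ b i = x

end defs

section

variable {C : Type u} [Category.{v} C] [MonoidalCategory C] [SymmetricCategory C]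
  [Preadditive C] [Linear ℚ C] [MonoidalPreadditive C] [MonoidalLinear ℚ C]

theorem powerZero_iff {η : ℚ} (hη : η * η = 1) {M N : C} (f : M ⟶ N) (n : ℕ) :
    PowerZero η f n ↔ PV η f n := (pv_iff hη f n).symm

theorem powerVanishes_iff {η : ℚ} (hη : η * η = 1) {M : C} (f : M ⟶ M) (n : ℕ) :
    PowerVanishes η f n ↔ PV η f n := (pv_iff hη f n).symm

/-- The ideal property; the ranks add up. -/
theorem ideal {η : ℚ} (hη : η * η = 1) {M : C} (x : M ⟶ M) (r : ℕ) :
    PowerZero η x (r + 1) ↔ IsSumOf η x r := by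
  constructor
  · intro h
    refine ⟨1, fun _ => M, fun _ => M, fun _ => 𝟙 M, fun _ => x, fun _ => 𝟙 M, fun _ => r,
      fun _ => h, ?_, ?_⟩
    · simp
    · simp
  · rintro ⟨m, N, N', a, f, b, k, hf, rfl, rfl⟩
    rw [powerZero_iff hη]
    exact PV.sum hη Finset.univ (fun i => a i ≫ f i ≫ b i) k fun i _ =>
      ((powerZero_iff hη _ _).1 (hf i)).comp (a i) (b i)

variable [RightRigidCategory C]

/-- Fitting decomposition for a morphism with a vanishing power. -/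
theorem fitting (hU : UnitQ C) {η : ℚ} (hη : η * η = 1) {M : C} (f : M ⟶ M) (n : ℕ)
    (h : PowerZero η f n) : ∃ e u : M ⟶ M, e ≫ e = e ∧ e = f ≫ u ∧ f ≫ u = u ≫ f ∧
      PowerZero η e n ∧ ∃ a : ℕ, (1 - End.of e) * End.of f ^ a = 0 := by
  obtain ⟨P, hP, hf⟩ := algebraic hU hη f n ((powerZero_iff hη _ _).1 h)
  obtain ⟨e, u, w, h1, h2, h3, h4, h5, h6, a, h7⟩ := exists_idem (R := End M) f P hP hf
  have h2' : (e : M ⟶ M) = f ≫ (u : M ⟶ M) := h2.trans h3
  refine ⟨e, u, h1, h2', h3.symm, ?_, a, ?_⟩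
  · rw [h2', powerZero_iff hη]
    have := ((powerZero_iff hη _ _).1 h).comp (𝟙 M) (u : M ⟶ M)
    rwa [Category.id_comp] at this
  · exact h7

/-- The main step. -/
theorem idem_of_add (hU : UnitQ C) {M : C} (f g : M ⟶ M) (hfg : f + g = 𝟙 M) {a b : ℕ}
    (hf : PowerZero (-1) f a) (hg : PowerZero 1 g b) :
    ∃ e : M ⟶ M, e ≫ e = e ∧ PowerZero (-1) e a ∧ PowerZero 1 (𝟙 M - e) b := by
  have hf' : PV (-1) f a := (powerZero_iff (by norm_num) _ _).1 hf
  have hg1 : PV 1 g b := (powerZero_iff (by norm_num) _ _).1 hg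
  obtain ⟨P, hP, hf0⟩ := algebraic hU (η := -1) (by norm_num) f a hf'
  obtain ⟨e, u, w, h1, h2, h3, h4, h5, h6, -⟩ := exists_idem (R := End M) f P hP hf0
  have hg' : g = 𝟙 M - f := by
    rw [eq_sub_iff_add_eq, add_comm]
    exact hfg
  refine ⟨e, h1, ?_, ?_⟩
  · rw [powerZero_iff (by norm_num)]
    have h2' : (e : M ⟶ M) = f ≫ (u : M ⟶ M) := h2.trans h3
    rw [h2']
    have := hf'.comp (𝟙 M) (u : M ⟶ M)
    rwa [Category.id_comp] at this
  · have h4' : PV 1 (g ≫ (w : M ⟶ M)) b := by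
      have := hg1.comp (𝟙 M) (w : M ⟶ M)
      rwa [Category.id_comp] at this
    have h4'' : PowerZero 1 (g ≫ (w : M ⟶ M)) b := (powerZero_iff (by norm_num) _ _).2 h4'
    rw [hg'] at h4''
    have h6 : (1 - e : End M) = (1 - (show End M from f)) * w := h4
    have h7 : (1 - (show End M from f)) * w = w * (1 - (show End M from f)) := h5
    have h8 : (1 - e : End M) = w * (1 - (show End M from f)) := h6.trans h7
    have h9 : PowerZero 1 (w * (1 - (show End M from f)) : End M) b := h4''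
    rw [← h8] at h9
    exact h9

/-- **Direct sums of an even and an odd object and sums of morphisms with vanishing powers.** -/
theorem idem_iff (hU : UnitQ C) (M : C) (r s : ℕ) :
    (∃ e : M ⟶ M, e ≫ e = e ∧ PowerZero (-1) e (r + 1) ∧ PowerZero 1 (𝟙 M - e) (s + 1)) ↔
      ∃ x y : M ⟶ M, x + y = 𝟙 M ∧ IsSumOf (-1) x r ∧ IsSumOf 1 y s := by
  constructor
  · rintro ⟨e, he, h1, h2⟩
    exact ⟨e, 𝟙 M - e, by simp, (ideal (by norm_num) _ _).1 h1, (ideal (by norm_num) _ _).1 h2⟩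
  · rintro ⟨x, y, hxy, h1, h2⟩
    exact idem_of_add hU x y hxy ((ideal (by norm_num) _ _).2 h1) ((ideal (by norm_num) _ _).2 h2)

theorem kimura_iff (hU : UnitQ C) (M : C) : IsKimuraFinite M ↔
    ∃ r s : ℕ, ∃ x y : M ⟶ M, x + y = 𝟙 M ∧ IsSumOf (-1) x r ∧ IsSumOf 1 y s := by
  have hz : ∀ {η : ℚ} {f : M ⟶ M}, ¬ PowerZero η f 0 := by
    intro η f h
    apply hU.ne
    have h1 := h (𝟙_ C) (𝟙 _) (by
      intro s hs
      cases hs)
    have h2 : tpm f 0 ≫ 𝟙 (tp M 0) = 𝟙 (𝟙_ C) := by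
      show 𝟙 (𝟙_ C) ≫ 𝟙 (𝟙_ C) = _
      rw [Category.id_comp]
    exact h2.symm.trans h1
  constructor
  · rintro ⟨e, he, ⟨a, ha⟩, b, hb⟩
    rcases a with - | a
    · exact absurd ha hz
    rcases b with - | b
    · exact absurd hb hz
    exact ⟨a, b, (idem_iff hU M a b).1 ⟨e, he, ha, hb⟩⟩
  · rintro ⟨r, s, h⟩
    obtain ⟨e, he, h1, h2⟩ := (idem_iff hU M r s).2 h
    exact ⟨e, he, ⟨_, h1⟩, _, h2⟩

end

end Pool.Agent.K3h42.SM
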