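import Pool.Agent.Y112.KD.Kill

/-!
# Morphisms with a vanishing exterior or symmetric power: sums
-/

set_option autoImplicit false
set_option linter.all false

open CategoryTheory Limits MonoidalCategory
open Pool.Agent.Y112.KD

namespace Pool.Agent.K3h42.SM

universe v u

section

variable {C : Type u} [Category.{v} C] [MonoidalCategory C] [SymmetricCategory C]
  [Preadditive C] [Linear ℚ C] [MonoidalPreadditive C] [MonoidalLinear ℚ C]

/-- The `n`-th exterior (`η = -1`) or symmetric (`η = 1`) power of the morphism is zero. -/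
def PV (η : ℚ) {M N : C} (f : M ⟶ N) (n : ℕ) : Prop := tpm f n ≫ asym η N n = 0

theorem pv_iff {η : ℚ} (hη : η * η = 1) {M N : C} (f : M ⟶ N) (n : ℕ) :
    PV η f n ↔ ∀ (Z : C) (h : tp N n ⟶ Z), (∀ s, IsSwap N n s → s ≫ h = η • h) →
      tpm f n ≫ h = 0 := by
  constructor
  · intro h Z g hg
    rw [← asym_comp hη g hg, ← Category.assoc, show tpm f n ≫ asym η N n = 0 from h, zero_comp]
  · intro h
    exact h _ _ fun s hs => (swap_asym hη N hs).1

theorem PV.comp {η : ℚ} {M N P Q : C} {f : N ⟶ P} {n : ℕ} (h : PV η f n) (a : M ⟶ N) (b : P ⟶ Q) :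
    PV η (a ≫ f ≫ b) n := by
  unfold PV at h ⊢
  rw [← tpm_comp, ← tpm_comp, Category.assoc, Category.assoc, asym_nat, ← Category.assoc (tpm f n),
    h, zero_comp, comp_zero]

theorem tens {η : ℚ} (hη : η * η = 1) {M : C} {n : ℕ} {x : tp M n ⟶ tp M n}
    {g : M ⟶ M} (h : x ≫ asym η M n = 0) : (x ⊗ₘ g : tp M (n + 1) ⟶ tp M (n + 1)) ≫ asym η M (n + 1) = 0 := by
  rw [← (absorb hη M n).1, MonoidalCategory.tensorHom_def', Category.assoc, ← comp_whiskerRight_assoc,
    h, MonoidalPreadditive.zero_whiskerRight, zero_comp, comp_zero]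

theorem tens' {η : ℚ} (hη : η * η = 1) {M : C} {n : ℕ} {x y u : tp M n ⟶ tp M n}
    {g : M ⟶ M} (h : x ≫ asym η M n = u ≫ y ≫ asym η M n) :
    (x ⊗ₘ g : tp M (n + 1) ⟶ tp M (n + 1)) ≫ asym η M (n + 1) =
      (u ▷ M) ≫ (y ⊗ₘ g : tp M (n + 1) ⟶ tp M (n + 1)) ≫ asym η M (n + 1) := by
  rw [← (absorb hη M n).1, MonoidalCategory.tensorHom_def', Category.assoc,
    ← comp_whiskerRight_assoc, h, MonoidalCategory.tensorHom_def', Category.assoc,
    ← comp_whiskerRight_assoc y, comp_whiskerRight, Category.assoc, whisker_exchange_assoc]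

/-- The word with the letters `f` at the places before `i` and `g` at the other places. -/
def srt {M : C} (f g : M ⟶ M) (i : ℕ) : ∀ n : ℕ, (tp M n ⟶ tp M n)
  | 0 => 𝟙 _
  | n + 1 => srt f g i n ⊗ₘ (if n < i then f else g)

/-- Words with `i` letters `f`. -/
inductive Wd {M : C} (f g : M ⟶ M) : ∀ (n i : ℕ), (tp M n ⟶ tp M n) → Prop
  | nil : Wd f g 0 0 (𝟙 _)
  | fst (n i : ℕ) (x : tp M n ⟶ tp M n) : Wd f g n i x → Wd f g (n + 1) (i + 1) (x ⊗ₘ f)
  | snd (n i : ℕ) (x : tp M n ⟶ tp M n) : Wd f g n i x → Wd f g (n + 1) i (x ⊗ₘ g)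

theorem Wd.le {M : C} {f g : M ⟶ M} {n i : ℕ} {x : tp M n ⟶ tp M n} (h : Wd f g n i x) :
    i ≤ n := by
  induction h <;> omega

theorem Wd.symm {M : C} {f g : M ⟶ M} {n i : ℕ} {x : tp M n ⟶ tp M n} (h : Wd f g n i x) :
    Wd g f n (n - i) x := by
  induction h with
  | nil => exact Wd.nil
  | fst n i x h ih =>
    have e : n + 1 - (i + 1) = n - i := by omega
    rw [e]
    exact Wd.snd _ _ _ ih
  | snd n i x h ih =>
    have e : n + 1 - i = n - i + 1 := by have := h.le; omega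
    rw [e]
    exact Wd.fst _ _ _ ih

theorem srt_le {M : C} (f g : M ⟶ M) {i n : ℕ} (h : n ≤ i) : srt f g i n = tpm f n := by
  induction n with
  | zero => rfl
  | succ n ih =>
    have e1 : srt f g i (n + 1) = srt f g i n ⊗ₘ (if n < i then f else g) := rfl
    have e2 : tpm f (n + 1) = tpm f n ⊗ₘ f := rfl
    rw [e1, e2, ih (by omega), if_pos (by omega)]

theorem move {η : ℚ} (hη : η * η = 1) {M : C} (f g : M ⟶ M) (i : ℕ) : ∀ n : ℕ, i ≤ n →
    ∃ u : tp M (n + 1) ⟶ tp M (n + 1),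
      (srt f g i n ⊗ₘ f : tp M (n + 1) ⟶ tp M (n + 1)) ≫ asym η M (n + 1) =
        u ≫ srt f g (i + 1) (n + 1) ≫ asym η M (n + 1) := by
  intro n
  induction n with
  | zero =>
    intro h
    obtain rfl : i = 0 := by omega
    exact ⟨𝟙 _, by rw [Category.id_comp]; rfl⟩
  | succ n ih =>
    intro h
    by_cases h1 : i = n + 1
    · subst h1
      refine ⟨𝟙 _, ?_⟩
      rw [Category.id_comp, srt_le f g le_rfl, srt_le f g le_rfl]
      rfl
    · obtain ⟨u, hu⟩ := ih (by omega)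
      have e1 : srt f g i (n + 1) = (srt f g i n ⊗ₘ g : tp M (n + 1) ⟶ tp M (n + 1)) := by
        show srt f g i n ⊗ₘ (if n < i then f else g) = _
        rw [if_neg (by omega)]
      have e2 : srt f g (i + 1) (n + 2) =
          (srt f g (i + 1) (n + 1) ⊗ₘ g : tp M (n + 2) ⟶ tp M (n + 2)) := by
        show srt f g (i + 1) (n + 1) ⊗ₘ (if n + 1 < i + 1 then f else g) = _
        rw [if_neg (by omega)]
      have h2 := (asym_main hη M n).2.2.1
      have h3 : asym η M (n + 2) = η • (sw (tp M n) M ≫ asym η M (n + 2)) := by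
        rw [h2, smul_smul, hη, one_smul]
      have h4 : ((srt f g i n ⊗ₘ g) ⊗ₘ f : tp M (n + 2) ⟶ tp M (n + 2)) ≫ sw (tp M n) M =
          sw (tp M n) M ≫ ((srt f g i n ⊗ₘ f) ⊗ₘ g : tp M (n + 2) ⟶ tp M (n + 2)) :=
        sw_nat _ _ _
      have h5 := tens' (n := n + 1) hη (g := g) hu
      refine ⟨η • (sw (tp M n) M ≫ (u ▷ M)), ?_⟩
      rw [e1, e2, h3, Linear.comp_smul, ← Category.assoc, h4, Category.assoc, h5, ← h3,
        Linear.smul_comp, Category.assoc]

theorem sort {η : ℚ} (hη : η * η = 1) {M : C} {f g : M ⟶ M} {n i : ℕ} {x : tp M n ⟶ tp M n}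
    (h : Wd f g n i x) : ∃ u : tp M n ⟶ tp M n,
      x ≫ asym η M n = u ≫ srt f g i n ≫ asym η M n := by
  induction h with
  | nil =>
    refine ⟨𝟙 _, ?_⟩
    show 𝟙 _ ≫ asym η M 0 = 𝟙 _ ≫ 𝟙 _ ≫ asym η M 0
    simp
  | fst n i x h ih =>
    obtain ⟨u, hu⟩ := ih
    obtain ⟨u', hu'⟩ := move hη f g i n h.le
    exact ⟨(u ▷ M) ≫ u', by rw [tens' hη hu, hu', Category.assoc]⟩
  | snd n i x h ih =>
    obtain ⟨u, hu⟩ := ih
    refine ⟨u ▷ M, ?_⟩
    have e : srt f g i (n + 1) = (srt f g i n ⊗ₘ g : tp M (n + 1) ⟶ tp M (n + 1)) := by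
      show srt f g i n ⊗ₘ (if n < i then f else g) = _
      rw [if_neg (by have := h.le; omega)]
    rw [tens' hη hu, e]

theorem srt_zero {η : ℚ} (hη : η * η = 1) {M : C} {f : M ⟶ M} (g : M ⟶ M) {a : ℕ} (h : PV η f a)
    {i : ℕ} (hi : a ≤ i) : ∀ n : ℕ, a ≤ n → srt f g i n ≫ asym η M n = 0 := by
  intro n hn
  induction n, hn using Nat.le_induction with
  | base =>
    rw [srt_le f g hi]
    exact h
  | succ n hn ih => exact tens hη ih

theorem wd_zero {η : ℚ} (hη : η * η = 1) {M : C} {f g : M ⟶ M} {a : ℕ} (h : PV η f a)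
    {n i : ℕ} {x : tp M n ⟶ tp M n} (hx : Wd f g n i x) (hi : a ≤ i) : x ≫ asym η M n = 0 := by
  obtain ⟨u, hu⟩ := sort hη hx
  rw [hu, srt_zero hη g h hi n (hi.trans hx.le), comp_zero]

theorem expand {M : C} (f g : M ⟶ M) (n : ℕ) :
    tpm (f + g) n ∈ AddSubmonoid.closure {x : tp M n ⟶ tp M n | ∃ i, Wd f g n i x} := by
  induction n with
  | zero => exact AddSubmonoid.subset_closure ⟨0, Wd.nil⟩
  | succ n ih =>
    have e : tpm (f + g) (n + 1) = tpm (f + g) n ⊗ₘ (f + g) := rfl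
    rw [e]
    have key : ∀ x ∈ AddSubmonoid.closure {x : tp M n ⟶ tp M n | ∃ i, Wd f g n i x},
        (x ⊗ₘ (f + g) : tp M (n + 1) ⟶ tp M (n + 1)) ∈
          AddSubmonoid.closure {x : tp M (n + 1) ⟶ tp M (n + 1) | ∃ i, Wd f g (n + 1) i x} := by
      intro x hx
      induction hx using AddSubmonoid.closure_induction with
      | mem x hx =>
        obtain ⟨i, hi⟩ := hx
        rw [MonoidalPreadditive.tensor_add]
        exact add_mem (AddSubmonoid.subset_closure ⟨_, Wd.fst _ _ _ hi⟩)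
          (AddSubmonoid.subset_closure ⟨_, Wd.snd _ _ _ hi⟩)
      | zero =>
        rw [MonoidalPreadditive.zero_tensor]
        exact zero_mem _
      | add x y _ _ hx hy =>
        rw [MonoidalPreadditive.add_tensor]
        exact add_mem hx hy
    exact key _ ih

/-- The morphisms with a vanishing exterior (symmetric) power are closed under sums; the ranks add
up. -/
theorem PV.add {η : ℚ} (hη : η * η = 1) {M : C} {f g : M ⟶ M} {a b : ℕ} (hf : PV η f (a + 1))
    (hg : PV η g (b + 1)) : PV η (f + g) (a + b + 1) := by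
  unfold PV
  have key : ∀ x ∈ AddSubmonoid.closure {x : tp M (a + b + 1) ⟶ tp M (a + b + 1) |
      ∃ i, Wd f g (a + b + 1) i x}, x ≫ asym η M (a + b + 1) = 0 := by
    intro x hx
    induction hx using AddSubmonoid.closure_induction with
    | mem x hx =>
      obtain ⟨i, hi⟩ := hx
      by_cases h : a + 1 ≤ i
      · exact wd_zero hη hf hi h
      · exact wd_zero hη hg hi.symm (by omega)
    | zero => rw [zero_comp]
    | add x y _ _ hx hy => rw [Preadditive.add_comp, hx, hy, add_zero]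
  exact key _ (expand f g (a + b + 1))

theorem PV.zero (η : ℚ) (M N : C) : PV η (0 : M ⟶ N) 1 := by
  unfold PV
  have e : tpm (0 : M ⟶ N) 1 = tpm (0 : M ⟶ N) 0 ⊗ₘ (0 : M ⟶ N) := rfl
  rw [e, MonoidalPreadditive.tensor_zero, zero_comp]

theorem PV.sum {η : ℚ} (hη : η * η = 1) {M : C} {ι : Type*} (s : Finset ι) (f : ι → (M ⟶ M))
    (r : ι → ℕ) (h : ∀ i ∈ s, PV η (f i) (r i + 1)) : PV η (∑ i ∈ s, f i) ((∑ i ∈ s, r i) + 1) := by
  classical
  induction s using Finset.induction_on with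
  | empty =>
    rw [Finset.sum_empty, Finset.sum_empty]
    exact PV.zero η M M
  | insert i s hi ih =>
    rw [Finset.sum_insert hi, Finset.sum_insert hi]
    exact (h i (Finset.mem_insert_self i s)).add hη
      (ih fun j hj => h j (Finset.mem_insert_of_mem hj))

end

end Pool.Agent.K3h42.SM
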